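import Pool.Agent.H27.FrobPart

set_option autoImplicit false

namespace Pool.Agent.Results.MP_c23b5e_al.AllFail

open Pool.Agent.H27.FrobPart

/-- An infinite group with a nontrivial Frobenius partition for which (i), (ii), (iii) all fail. -/
theorem result : ∃ (Γ : Type) (_ : Group Γ) (N : Subgroup Γ) (𝒜 : Set (Subgroup Γ)),
    Infinite Γ ∧ IsFrobPart N 𝒜 ∧ N ≠ ⊥ ∧
    (∃ (N' : Subgroup Γ) (𝒜' : Set (Subgroup Γ)), IsFrobPart N' 𝒜' ∧ N' ≠ N) ∧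
    (∃ A ∈ 𝒜, ∃ B ∈ 𝒜, IsEmpty (A ≃* B)) ∧
    (∀ A ∈ 𝒜, ¬ ∀ γ : Γ, ∃ t ∈ N, ∃ a ∈ A, γ = t * a) :=
  ⟨G, inferInstance, T, _, inferInstance, partT, fun h => by
      have : (⟨0, PowerSeries.X, ⟨0, by simp⟩, by simp⟩ : G) ∈ T := rfl
      rw [h, Subgroup.mem_bot] at this
      exact PowerSeries.X_ne_zero (congrArg G.b this),
    ⟨N0, _, partN, T_ne⟩, ⟨_, ⟨g1, g1_T, rfl⟩, _, ⟨gi, gi_T, rfl⟩, noniso⟩, nonsplit⟩

end Pool.Agent.Results.MP_c23b5e_al.AllFail
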